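import Pool.Agent.Y111.GT.Forms

/-!
# The growth rate of a group and quasi-fixed points in cones

Question Q1 of MP_a6ddc5_al (clause 4 of the theorem) in a quantitative form: for a finite set `S`
that generates the group `G` as a monoid and `κ ≥ 1`, the growth rate `lim |B(n)|^(1/n)` of the
balls of `S` is at most `κ` if and only if the fixed-point property for cones holds with `s x = x`
replaced by `s x ≤ κ x` (`s ∈ S`), if and only if there are integrals which are multiplied at most
by `κ` under the translations by the elements of `S`.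

Definitions used from the files `Pool.Agent.H602R3.ConeDefs`, `ConeInt`, `ConeTree`:
`WeaklyComplete`, `FixedPointPropertyForCones G`, `dom f hf` (the space `ℓ^∞(G;f)`), `tl f hf g`
(the translation of `ℓ^∞(G;f)` by `g`), `ballS S n` (the products of at most `n` elements of `S`).
Definitions from `Pool.Agent.Y111.GT`: `GrowthLe S κ`, `QuasiFixedForCones S κ`,
`QuasiIntegrals S κ`.
-/

set_option autoImplicit false

namespace Pool.Agent.Results.MP_a6ddc5_al.GrowthThreshold

open Filter Topology Pool.Agent.H602R3.Cone Pool.Agent.H602R3.ConeTree Pool.Agent.Y111.GT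

universe u

/-- Let `G` be a group.
1, 2. Let the finite set `S` generate `G` as a monoid and let `κ ≥ 1`. The growth rate of `S` is at
most `κ` if and only if every representation of `G` on a weakly complete proper convex cone `C` of
locally bounded type and of cobounded type has `x ∈ C`, `x ≠ 0`, with `s x ≤ κ x` for all `s ∈ S`;
and if and only if for every bounded nonzero `f ≥ 0` on `G` there is a positive linear form `μ` on
`ℓ^∞(G;f)` with `μ f = 1` and `μ (h (s ·)) ≤ κ μ h` for all `s ∈ S` and `h ≥ 0`.
3. If the finite set `S` generates `G` as a monoid, then `G` has the fixed-point property for cones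
if and only if it has subexponential growth.
4. If `G` has the fixed-point property for cones, then `|B(n)|^(1/n) → 1` for the balls of every
finite subset `S` of `G`: no finitely generated group of exponential growth has the fixed-point
property for cones (the negative answer to Q1). -/
theorem result (G : Type u) [Group G] :
    (∀ (S : Finset G) (κ : ℝ), Submonoid.closure (S : Set G) = ⊤ → 1 ≤ κ →
      (GrowthLe S κ ↔ QuasiFixedForCones S κ) ∧ (GrowthLe S κ ↔ QuasiIntegrals S κ)) ∧
    (∀ (S : Finset G), Submonoid.closure (S : Set G) = ⊤ →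
      (FixedPointPropertyForCones G ↔ GrowthLe S 1)) ∧
    (FixedPointPropertyForCones G → ∀ S : Finset G,
      Tendsto (fun n : ℕ => ((ballS S n).ncard : ℝ) ^ ((1 : ℝ) / n)) atTop (𝓝 1)) := by
  have key : ∀ (S : Finset G) (κ : ℝ), Submonoid.closure (S : Set G) = ⊤ → 1 ≤ κ →
      (GrowthLe S κ ↔ QuasiFixedForCones S κ) ∧ (GrowthLe S κ ↔ QuasiIntegrals S κ) := by
    intro S κ hS hκ
    have h1 : GrowthLe S κ → QuasiFixedForCones S κ := fixed_of_growthLe S hS hκ
    have h2 : QuasiFixedForCones S κ → QuasiIntegrals S κ := quasiIntegrals_of_fixed S hS hκ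
    have h3 : QuasiIntegrals S κ → GrowthLe S κ := growthLe_of_integrals S hκ
    exact ⟨⟨h1, fun h => h3 (h2 h)⟩, ⟨fun h => h2 (h1 h), h3⟩⟩
  refine ⟨key, fun S hS => ?_, fun hG S => ?_⟩
  · rw [fixed_iff S hS, (key S 1 hS le_rfl).1]
  · have hgr : GrowthLe S 1 := growthLe_of_integrals S le_rfl (quasiIntegrals_of_FPC hG S)
    rw [Metric.tendsto_atTop]
    intro ε hε
    obtain ⟨N₁, hN₁⟩ := eventually_atTop.1 (hgr (1 + ε / 2) (by linarith))
    refine ⟨max N₁ 1, fun n hn => ?_⟩
    have hn1 : 1 ≤ n := le_trans (le_max_right _ _) hn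
    have hn2 : N₁ ≤ n := le_trans (le_max_left _ _) hn
    have hnpos : (0 : ℝ) < n := by exact_mod_cast hn1
    have hge : (1 : ℝ) ≤ (ballS S n).ncard := by
      have h1 : (1 : G) ∈ ballS S n := ⟨[], by simp, by simp, rfl⟩
      have h2 : 1 ≤ (ballS S n).ncard := (Set.ncard_pos (ballS_finite S n)).2 ⟨1, h1⟩
      exact_mod_cast h2
    have hlow : (1 : ℝ) ≤ ((ballS S n).ncard : ℝ) ^ ((1 : ℝ) / n) :=
      Real.one_le_rpow hge (by positivity)
    have hup : ((ballS S n).ncard : ℝ) ^ ((1 : ℝ) / n) ≤ 1 + ε / 2 := by
      calc ((ballS S n).ncard : ℝ) ^ ((1 : ℝ) / n) ≤ ((1 + ε / 2) ^ n) ^ ((1 : ℝ) / n) :=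
            Real.rpow_le_rpow (by positivity) (hN₁ n hn2) (by positivity)
        _ = 1 + ε / 2 := by
          rw [← Real.rpow_natCast, ← Real.rpow_mul (by positivity), mul_one_div,
            div_self hnpos.ne', Real.rpow_one]
    rw [Real.dist_eq, abs_lt]
    constructor <;> linarith

end Pool.Agent.Results.MP_a6ddc5_al.GrowthThreshold
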